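import Pool.Agent.W581.HQ.Stm

/-!
# The conditions on the profile
-/

set_option autoImplicit false

namespace Pool.Agent.W563.HQ.Dh

open MeasureTheory Set Filter Topology
open Pool.Agent.W360.MQ (RC wf QA cab RankOneConvex Quasiconvex)
open Pool.Agent.W581.HQ

lemma dd_nonneg {φ : ℝ → ℝ} (hs : ContDiff ℝ 2 φ) (hc : ConvexOn ℝ univ φ) (t : ℝ) :
    0 ≤ deriv (deriv φ) t := by
  have hd : Differentiable ℝ φ := hs.differentiable (by norm_num)
  have h1 : Monotone (deriv φ) := by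
    have h2 := hc.monotoneOn_deriv (fun x _ => hd x)
    exact fun x y hxy => h2 (mem_univ x) (mem_univ y) hxy
  exact h1.deriv_nonneg

lemma alg {f2 kap cb t : ℝ} (hf : 0 ≤ f2) (hk : 0 < kap) (hc : 0 ≤ cb)
    (hQ : ∀ z : ℝ, 0 ≤ z → 0 ≤ f2 * (z + t) ^ 2 - 2 * kap * z + cb) :
    kap ^ 2 ≤ (cb + 2 * kap * t) * f2 := by
  rcases hf.eq_or_lt with h0 | h0
  · exfalso
    have h1 := hQ ((cb + 1) / kap) (by positivity)
    rw [← h0] at h1
    have h2 : 2 * kap * ((cb + 1) / kap) = 2 * (cb + 1) := by field_simp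
    rw [h2] at h1
    linarith
  · rcases le_or_gt 0 (kap / f2 - t) with h1 | h1
    · have h2 := hQ _ h1
      have h3 : f2 * (kap / f2 - t + t) ^ 2 - 2 * kap * (kap / f2 - t) + cb =
          ((cb + 2 * kap * t) * f2 - kap ^ 2) / f2 := by
        field_simp
        ring
      rw [h3] at h2
      have h4 := mul_nonneg h2 h0.le
      rw [div_mul_cancel₀ _ h0.ne'] at h4
      linarith
    · have h2 : kap < t * f2 := by
        have h3 : kap / f2 < t := by linarith
        rwa [div_lt_iff₀ h0] at h3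
      have h4 : kap * kap ≤ kap * (t * f2) := mul_le_mul_of_nonneg_left h2.le hk.le
      have h5 : 0 ≤ cb * f2 := mul_nonneg hc h0.le
      nlinarith

lemma one (h1 : S_REC) (h2 : S_CV) (h3 : S_A0) (h4 : S_R3A) (h5 : S_R3B) (p : ℝ) (W : M2 → ℝ)
    (hW : Hyp p W) (hs : ContDiff ℝ 2 (phi W)) : DH p (phi W) where
  p1 := hW.p1
  sm := hs
  cv := h2 p W hW
  e1 := (h1 p W hW).2 hs
  a0 := h3 p W hW hs
  rc := by
    intro t ht hK
    have ht1 : 0 < 1 + t := by linarith [ht.1]
    have hp := hW.p1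
    have ha := h3 p W hW hs t ⟨ht.1.le, ht.2.le⟩
    set kap := KK p (phi W) t / (1 + t) with hkap
    set cb := (p - 1) * (p * phi W t - 2 * t * deriv (phi W) t) with hcb
    have hk : 0 < kap := div_pos hK ht1
    have hc : 0 ≤ cb := mul_nonneg (by linarith) (by linarith)
    have hkK : KK p (phi W) t = kap * (1 + t) := by
      rw [hkap, div_mul_cancel₀ _ ht1.ne']
    have hmain := alg (t := t) (dd_nonneg hs (h2 p W hW) t) hk hc (fun z hz => by
      have hz1 : 0 < 1 + z := by linarith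
      refine h5 p (phi W) hW.p1 hs t ht z hz (h4 p W hW t ht _ ?_ ?_)
      · rw [le_div_iff₀ hz1]
        nlinarith
      · rw [div_lt_one hz1]
        linarith)
    rw [hkK]
    have h6 : (p - 1) * (1 + t) ^ 2 * (p * phi W t - 2 * t * deriv (phi W) t) =
        cb * (1 + t) ^ 2 := by
      rw [hcb]
      ring
    rw [h6]
    have h7 := mul_le_mul_of_nonneg_left hmain (sq_nonneg (1 + t))
    linarith

theorem main (h1 : S_REC) (h2 : S_CV) (h3 : S_A0) (h4 : S_R3A) (h5 : S_R3B) (h6 : S_MIR) :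
    S_DH := by
  intro p W hW hs
  refine ⟨one h1 h2 h3 h4 h5 p W hW hs, ?_⟩
  obtain ⟨hm, hm'⟩ := h6 p W hW
  have h7 : phi (mir W) = fun t => phi W (-t) := funext hm'
  rw [← h7]
  refine one h1 h2 h3 h4 h5 p (mir W) hm ?_
  rw [h7]
  exact hs.comp contDiff_neg

end Pool.Agent.W563.HQ.Dh
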